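import Pool.Agent.helper17.EXC.Spec

/-!
# Row THT: the Weyl group is transitive on the pairs of roots with given product
-/

set_option autoImplicit false

open Finset

namespace Pool.Agent.EXC

variable {n : ℕ} (C : Matrix (Fin n) (Fin n) ℤ)

theorem THT_symm [IsC C] (hRFL : RFL_stmt) {p q : (Fin n → ℤ) × (Fin n → ℤ)} (h : WP C p q) : WP C q p := by
  induction h with
  | refl => exact Relation.ReflTransGen.refl
  | tail _ h2 ih =>
    obtain ⟨i, hi⟩ := h2
    refine Relation.ReflTransGen.head ⟨i, ?_⟩ ih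
    rw [hi]
    ext1
    · exact ((hRFL n C i _ 0).2.1).symm
    · exact ((hRFL n C i _ 0).2.1).symm

theorem THT_ip [IsC C] (hRFL : RFL_stmt) {p q : (Fin n → ℤ) × (Fin n → ℤ)} (h : WP C p q) :
    ip C p.1 p.1 = ip C q.1 q.1 ∧ ip C p.2 p.2 = ip C q.2 q.2 ∧ ip C p.1 p.2 = ip C q.1 q.2 := by
  induction h with
  | refl => exact ⟨rfl, rfl, rfl⟩
  | tail _ h2 ih =>
    obtain ⟨i, hi⟩ := h2
    rw [hi]
    refine ⟨ih.1.trans ?_, ih.2.1.trans ?_, ih.2.2.trans ?_⟩
    · exact ((hRFL n C i _ _).1).symm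
    · exact ((hRFL n C i _ _).1).symm
    · exact ((hRFL n C i _ _).1).symm

theorem THT_move {J : Finset (Fin n)} {v w : Fin n → ℤ}
    (h : Relation.ReflTransGen (fun a b => ∃ i ∈ J, b = rf C i a) v w) (u : Fin n → ℤ) :
    ∃ u', WP C (v, u) (w, u') := by
  induction h with
  | refl => exact ⟨u, Relation.ReflTransGen.refl⟩
  | tail _ h2 ih =>
    obtain ⟨i, _, hi⟩ := h2
    obtain ⟨u', hu'⟩ := ih
    refine ⟨rf C i u', Relation.ReflTransGen.tail hu' ⟨i, ?_⟩⟩
    rw [hi]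

theorem THT_lift {J : Finset (Fin n)} {θ v w : Fin n → ℤ} (hθ : ∀ i ∈ J, rf C i θ = θ)
    (h : Relation.ReflTransGen (fun a b => ∃ i ∈ J, b = rf C i a) v w) : WP C (θ, v) (θ, w) := by
  induction h with
  | refl => exact Relation.ReflTransGen.refl
  | tail _ h2 ih =>
    obtain ⟨i, hiJ, hi⟩ := h2
    refine Relation.ReflTransGen.tail ih ⟨i, ?_⟩
    rw [hi]
    ext1
    · exact (hθ i hiJ).symm
    · rfl

theorem THT_liftneg [IsC C] (hRFL : RFL_stmt) {J : Finset (Fin n)} {θ v w : Fin n → ℤ} (hθ : ∀ i ∈ J, rf C i θ = θ)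
    (h : Relation.ReflTransGen (fun a b => ∃ i ∈ J, b = rf C i a) v w) : WP C (θ, -v) (θ, -w) := by
  induction h with
  | refl => exact Relation.ReflTransGen.refl
  | tail _ h2 ih =>
    obtain ⟨i, hiJ, hi⟩ := h2
    refine Relation.ReflTransGen.tail ih ⟨i, ?_⟩
    rw [hi]
    ext1
    · exact (hθ i hiJ).symm
    · exact ((hRFL n C i _ 0).2.2.1).symm

theorem THT_sum_rf (i : Fin n) (v : Fin n → ℤ) : ∑ k, rf C i v k = ∑ k, v k - ip C v (sr i) := by
  simp only [rf, Pi.sub_apply, Pi.smul_apply, Finset.sum_sub_distrib, smul_eq_mul, ← Finset.mul_sum]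
  simp [sr]

theorem THT_min [IsC C] (hRFL : RFL_stmt) (hDIC : DIC_stmt) (j0 : Fin n) (γ : Fin n → ℤ) (h2 : ip C γ γ = 2)
    (h1 : γ j0 = 1) :
    Relation.ReflTransGen (fun a b => ∃ i ∈ Finset.univ.erase j0, b = rf C i a) γ (sr j0) := by
  have hfin : ({x : Rt C | Relation.ReflTransGen (fun a b => ∃ i ∈ Finset.univ.erase j0, b = rf C i a) γ x.1}).Finite :=
    Set.toFinite _
  have hne : ({x : Rt C | Relation.ReflTransGen (fun a b => ∃ i ∈ Finset.univ.erase j0, b = rf C i a) γ x.1}).Nonempty :=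
    ⟨⟨γ, h2⟩, Relation.ReflTransGen.refl⟩
  obtain ⟨x, hx, hmin⟩ := Set.exists_min_image _ (fun x : Rt C => ∑ k, x.1 k) hfin hne
  have hx' : Relation.ReflTransGen (fun a b => ∃ i ∈ Finset.univ.erase j0, b = rf C i a) γ x.1 := hx
  -- the coordinate j0
  have hco : ∀ w, Relation.ReflTransGen (fun a b => ∃ i ∈ Finset.univ.erase j0, b = rf C i a) γ w → w j0 = 1 := by
    intro w hw
    induction hw with
    | refl => exact h1
    | tail _ hs ih =>
      obtain ⟨i, hi, hw⟩ := hs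
      rw [hw, (hRFL n C i _ 0).2.2.2.2 j0 (fun h => by simp [h] at hi)]
      exact ih
  have hx1 : x.1 j0 = 1 := hco _ hx'
  have hle : ∀ i, i ≠ j0 → ip C x.1 (sr i) ≤ 0 := by
    intro i hi
    have hr : ip C (rf C i x.1) (rf C i x.1) = 2 := by rw [(hRFL n C i _ _).1]; exact x.2
    have hm := hmin ⟨rf C i x.1, hr⟩ (Relation.ReflTransGen.tail hx' ⟨i, by simp [hi], rfl⟩)
    simp only [THT_sum_rf] at hm
    omega
  have hpos : Pos x.1 := by
    rcases hDIC n C x.1 x.2 with h | h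
    · exact h
    · have := h j0
      simp only [Pi.neg_apply] at this
      omega
  have hsum : ip C x.1 x.1 = ∑ i, x.1 i * ip C (sr i) x.1 := ip_eq_sum C x.1 x.1
  rw [← Finset.add_sum_erase _ _ (Finset.mem_univ j0), hx1, one_mul, x.2] at hsum
  have hrest : ∑ i ∈ Finset.univ.erase j0, x.1 i * ip C (sr i) x.1 ≤ 0 := by
    refine Finset.sum_nonpos fun i hi => ?_
    have h3 := hle i (Finset.ne_of_mem_erase hi)
    rw [ip_comm] at h3
    exact mul_nonpos_of_nonneg_of_nonpos (hpos i) h3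
  have h4 := (ip_abs_le (ip_sr_self C j0) x.2).2
  have h5 : ip C (sr j0) x.1 = 2 := by omega
  have h6 := eq_of_ip_eq_two (ip_sr_self C j0) x.2 h5
  rw [h6]
  exact hx'

theorem THT_std [IsC C] (hRFL : RFL_stmt) (hDIC : DIC_stmt) (hDOM : DOM_stmt) (j0 : Fin n) (θ : Fin n → ℤ)
    (δ : Fin 5 → Fin n) (hE : IsE C j0 θ δ) (β β' : Fin n → ℤ) (hβ : ip C β β = 2) (hβ' : ip C β' β' = 2)
    (he : ip C θ β = ip C θ β') (hm : ip C θ β = -2 ∨ ip C θ β = -1 ∨ ip C θ β = 0) : WP C (θ, β) (θ, β') := by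
  have hco : ∀ v : Fin n → ℤ, ip C θ v = v j0 := by
    intro v
    rw [ip_comm, ip_eq_sum]
    have : ∀ i, v i * ip C (sr i) θ = if i = j0 then v i else 0 := by
      intro i
      rw [ip_comm, hE.thd i]
      split_ifs <;> simp
    simp [this]
  have hfix : ∀ i ∈ Finset.univ.erase j0, rf C i θ = θ := by
    intro i hi
    rw [rf, hE.thd i, if_neg (Finset.ne_of_mem_erase hi), zero_smul, sub_zero]
  rcases hm with hm | hm | hm
  · have h1 := eq_neg_of_ip_eq_neg_two hE.th2 hβ hm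
    have h2 := eq_neg_of_ip_eq_neg_two hE.th2 hβ' (he ▸ hm)
    rw [h1, h2]
    exact Relation.ReflTransGen.refl
  · have key : ∀ v : Fin n → ℤ, ip C v v = 2 → ip C θ v = -1 → WP C (θ, v) (θ, -sr j0) := by
      intro v hv hv1
      have h1 : (-v) j0 = 1 := by
        rw [Pi.neg_apply, ← hco v, hv1, neg_neg]
      have h2 := THT_liftneg C hRFL hfix (THT_min C hRFL hDIC j0 (-v) (neg_root C hv) h1)
      rwa [neg_neg] at h2
    exact (key β hβ hm).trans (THT_symm C hRFL (key β' hβ' (he ▸ hm)))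
  · refine THT_lift C hfix (hDOM n C (Finset.univ.erase j0) hE.con' β β' hβ hβ' ?_ ?_)
    · intro i hi
      have : i = j0 := by
        by_contra h
        exact hi (by simp [h])
      rw [this, ← hco β, hm]
    · intro i hi
      have : i = j0 := by
        by_contra h
        exact hi (by simp [h])
      rw [this, ← hco β', ← he, hm]

theorem THT (hRFL : RFL_stmt) (hDIC : DIC_stmt) (hDOM : DOM_stmt) : THT_stmt := by
  intro n C _ j0 θ δ hE α β α' β' hα hβ hα' hβ' he hm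
  have hJ : ∀ v : Fin n → ℤ, ∀ i, i ∉ (Finset.univ : Finset (Fin n)) → v i = 0 :=
    fun v i hi => absurd (Finset.mem_univ i) hi
  obtain ⟨b, hb⟩ := THT_move C (hDOM n C Finset.univ hE.con α θ hα hE.th2 (hJ α) (hJ θ)) β
  obtain ⟨b', hb'⟩ := THT_move C (hDOM n C Finset.univ hE.con α' θ hα' hE.th2 (hJ α') (hJ θ)) β'
  have h1 := THT_ip C hRFL hb
  have h2 := THT_ip C hRFL hb'
  simp only at h1 h2
  refine (hb.trans ?_).trans (THT_symm C hRFL hb')
  refine THT_std C hRFL hDIC hDOM j0 θ δ hE b b' ?_ ?_ ?_ ?_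
  · rw [← h1.2.1, hβ]
  · rw [← h2.2.1, hβ']
  · rw [← h1.2.2, ← h2.2.2, he]
  · rw [← h1.2.2]
    exact hm

end Pool.Agent.EXC
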